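import Mathlib
import Pool.Agent.MP_dae09c_lc.Main

set_option autoImplicit false

/-!
# It is a theorem of ZF that every compact Hausdorff quasi-metrizable space is metrizable

The statement is proved in every model `(M, E)` of ZF (all models, of any size and in any universe,
well-founded or not).
-/

universe u

namespace Pool.Agent.Results.MP_dae09c_lc.ZFMetrizable

open Pool.Agent.MP_dae09c_lc

/-- In every model `(M, E)` of ZF, with `R` its real line, every compact Hausdorff
quasi-metrizable space `(X, T)` is metrizable. -/
theorem result {M : Type u} (E : M → M → Prop) (hM : IsModelZF E) (R : M)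
    [Field (Elt E R)] [LinearOrder (Elt E R)] (hR : IsRealLine E R) (X T : M)
    (hcompact : IsCompactSp E X T) (hHausdorff : IsHausdorffSp E X T)
    (hquasi : QuasiMetrizable E R X T) : Metrizable E R X T := by
  have : Fact (IsModelZF E) := ⟨hM⟩
  have : Fact (IsRealLine E R) := ⟨hR⟩
  obtain ⟨d, hd, hT⟩ := hquasi
  exact metrizable_of hd hT hcompact hHausdorff

end Pool.Agent.Results.MP_dae09c_lc.ZFMetrizable
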